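import Pool.Agent.helper99.PLR.Spec

/-!
# MP_d9e35a_co, row plr:FNB: two terms of `λ_d(m)` for growing `K = m / b`
-/

set_option autoImplicit false
set_option linter.unusedVariables false

open scoped Classical

namespace Pool.Agent.PLR

open Finset
open Pool.Agent.helper65.HC (V IsEig IsTop lam)
open Pool.Agent.helper9.HQ (Fam Dn E N Le Eig lk)
open Pool.Agent.helper9.HX (Ef)
open Pool.Agent.helper9.HLR (cel Lc)

noncomputable section

theorem FNB_sqrt (d K : ℝ) (hK : 0 ≤ K) (hd : 0 < d) (hKd : K ≤ d) : √d - K / √d ≤ √(d - K) := by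
  have hs : 0 < √d := Real.sqrt_pos.2 hd
  have hs2 : √d ^ 2 = d := Real.sq_sqrt hd.le
  apply Real.le_sqrt_of_sq_le
  have h1 : √d * (K / √d) = K := by field_simp
  have h2 : (K / √d) ^ 2 ≤ K := by
    rw [div_pow, hs2, div_le_iff₀ hd]
    nlinarith
  calc (√d - K / √d) ^ 2 = √d ^ 2 - 2 * (√d * (K / √d)) + (K / √d) ^ 2 := by ring
    _ = d - 2 * K + (K / √d) ^ 2 := by rw [hs2, h1]
    _ ≤ d - K := by linarith

theorem FNB_pow (k : ℕ) : ∃ d₀ : ℕ, ∀ d ≥ d₀, d ^ (k + 1) ≤ 2 ^ d := by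
  have h := tendsto_pow_const_div_const_pow_of_one_lt (k + 1) (r := (2 : ℝ)) (by norm_num)
  have h1 := (h.eventually_lt_const (u := 1) one_pos)
  obtain ⟨d₀, hd₀⟩ := Filter.eventually_atTop.1 h1
  refine ⟨d₀, fun d hd => ?_⟩
  have h2 := hd₀ d hd
  rw [div_lt_one (by positivity)] at h2
  exact_mod_cast h2.le

/-- the lower bound -/
theorem FNB_low (h x s k n D : ℝ) (eta th : ℝ) (hh : 0 ≤ h) (hk : 1 ≤ k) (hs : 0 < s)
    (hD : D = s ^ 2 - n - k) (hn1 : 1 ≤ n) (hnx : n ≤ x) (hxn : x < n + 1) (hx2 : 2 ≤ x)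
    (hxe : 4 ≤ eta * x) (heta : 0 < eta)
    (hth : x ≤ th * s ^ 2) (hth0 : 0 < th) (hth4 : th ≤ 1 / 4) (hk4 : 4 * k ≤ s ^ 2)
    (hthe : h * (1 + 3 * k) * √th ≤ eta / 2) :
    h * s + √x - eta * √x ≤ h * √D * (1 - k / D) + √(n - 1) := by
  have hx0 : 0 < x := by linarith
  have hs2 : 0 < s ^ 2 := by positivity
  have hn4 : n ≤ s ^ 2 / 4 := by nlinarith
  have hD2 : s ^ 2 / 2 ≤ D := by rw [hD]; linarith
  have hD0 : 0 < D := by linarith
  have hsD : 0 < √D := Real.sqrt_pos.2 hD0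
  have e1 : √(s ^ 2) = s := Real.sqrt_sq hs.le
  have h1 := FNB_sqrt (s ^ 2) (n + k) (by linarith) hs2 (by linarith)
  rw [e1, show s ^ 2 - (n + k) = D by rw [hD]; ring] at h1
  have h2 : s / 2 ≤ √D := by
    apply Real.le_sqrt_of_sq_le
    nlinarith
  have h3 : k / √D ≤ 2 * k / s := by
    rw [div_le_div_iff₀ hsD hs]
    nlinarith
  have h4 : √D * (1 - k / D) = √D - k / √D := by
    have : √D ^ 2 = D := Real.sq_sqrt hD0.le
    have h5 : k / √D = k * √D / D := by
      rw [div_eq_div_iff hsD.ne' hD0.ne']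
      nlinarith
    rw [h5]
    ring
  have h6 : s - (n + 3 * k) / s ≤ √D * (1 - k / D) := by
    rw [h4]
    have : (n + 3 * k) / s = (n + k) / s + 2 * k / s := by ring
    rw [this]
    linarith
  have h7 : h * s - h * ((n + 3 * k) / s) ≤ h * √D * (1 - k / D) := by
    have := mul_le_mul_of_nonneg_left h6 hh
    calc h * s - h * ((n + 3 * k) / s) = h * (s - (n + 3 * k) / s) := by ring
      _ ≤ h * (√D * (1 - k / D)) := this
      _ = h * √D * (1 - k / D) := by ring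
  have hsx : 0 < √x := Real.sqrt_pos.2 hx0
  have hsx2 : √x ^ 2 = x := Real.sq_sqrt hx0.le
  have h8 : (n + 3 * k) / s ≤ (1 + 3 * k) * (√th * √x) := by
    rw [div_le_iff₀ hs]
    have h9 : √x ≤ √th * s := by
      have : √x ≤ √(th * s ^ 2) := Real.sqrt_le_sqrt hth
      rw [Real.sqrt_mul hth0.le, e1] at this
      exact this
    have h10 : x ≤ √th * √x * s := by
      calc x = √x * √x := by rw [← sq, hsx2]
        _ ≤ √x * (√th * s) := mul_le_mul_of_nonneg_left h9 hsx.le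
        _ = √th * √x * s := by ring
    have h11 : n + 3 * k ≤ (1 + 3 * k) * x := by nlinarith
    calc n + 3 * k ≤ (1 + 3 * k) * x := h11
      _ ≤ (1 + 3 * k) * (√th * √x * s) := mul_le_mul_of_nonneg_left h10 (by linarith)
      _ = (1 + 3 * k) * (√th * √x) * s := by ring
  have h12 : h * ((n + 3 * k) / s) ≤ eta / 2 * √x := by
    calc h * ((n + 3 * k) / s) ≤ h * ((1 + 3 * k) * (√th * √x)) := mul_le_mul_of_nonneg_left h8 hh
      _ = h * (1 + 3 * k) * √th * √x := by ring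
      _ ≤ eta / 2 * √x := mul_le_mul_of_nonneg_right hthe hsx.le
  have h13 := FNB_sqrt x 2 (by norm_num) hx0 hx2
  have h14 : √(x - 2) ≤ √(n - 1) := Real.sqrt_le_sqrt (by linarith)
  have h15 : 2 / √x ≤ eta / 2 * √x := by
    rw [div_le_iff₀ hsx]
    nlinarith
  linarith

theorem FNB (hHZP : HZP_stmt) (hDC : Pool.Agent.helper9.HQ.DC_stmt) (hUBG : UBG_stmt)
    (hLBK : LBK_stmt) (hLNN : LNN_stmt) : FNB_stmt := by
  intro k eta hk heta
  set η : ℝ := min eta 1 with hη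
  have hη0 : 0 < η := lt_min heta one_pos
  obtain ⟨K₁, th₁, d₁, hK₁, hth₁, hU⟩ := hUBG k η hk hη0 (min_le_right _ _)
  obtain ⟨n₀, hn₀, hL⟩ := hLNN
  obtain ⟨d₂, hd₂⟩ := FNB_pow k
  set h : ℝ := hz (k + 1) with hh
  have hh0 : 0 ≤ h := (hHZP k).2.1
  have hkr : (1 : ℝ) ≤ k := by exact_mod_cast hk
  set c : ℝ := η / (2 * (h * (1 + 3 * k) + 1)) with hc
  have hq0 : 0 ≤ h * (1 + 3 * k) := by positivity
  have hc0 : 0 < c := by positivity
  set th : ℝ := min th₁ (min (1 / 4) (c ^ 2)) with hth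
  have hth0 : 0 < th := lt_min hth₁ (lt_min (by norm_num) (by positivity))
  have hth4 : th ≤ 1 / 4 := (min_le_right _ _).trans (min_le_left _ _)
  have hthc : √th ≤ c := by
    rw [← Real.sqrt_sq hc0.le]
    exact Real.sqrt_le_sqrt ((min_le_right _ _).trans (min_le_right _ _))
  have hthe : h * (1 + 3 * k) * √th ≤ η / 2 := by
    calc h * (1 + 3 * k) * √th ≤ h * (1 + 3 * k) * c := mul_le_mul_of_nonneg_left hthc hq0
      _ ≤ η / 2 := by
        rw [hc, mul_div_assoc', div_le_div_iff₀ (by positivity) (by norm_num)]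
        nlinarith
  set K₀ : ℝ := max K₁ (max (n₀ + 1) (max 2 (4 / η))) with hK₀
  have a1 : K₁ ≤ K₀ := le_max_left _ _
  have a2 : (n₀ : ℝ) + 1 ≤ K₀ := (le_max_left _ _).trans (le_max_right _ _)
  have a3 : (2 : ℝ) ≤ K₀ := (le_max_left _ _).trans ((le_max_right _ _).trans (le_max_right _ _))
  have a4 : 4 / η ≤ K₀ := (le_max_right _ _).trans ((le_max_right _ _).trans (le_max_right _ _))
  refine ⟨K₀, th, max d₁ (max d₂ (4 * k + 4)), by linarith, hth0, ?_⟩
  intro d hd m hm1 hm2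
  have hd1 : d₁ ≤ d := (le_max_left _ _).trans hd
  have hd2 : d₂ ≤ d := (le_max_left _ _).trans ((le_max_right _ _).trans hd)
  have hd3 : 4 * k + 4 ≤ d := (le_max_right _ _).trans ((le_max_right _ _).trans hd)
  have hd3r : 4 * (k : ℝ) + 4 ≤ d := by exact_mod_cast hd3
  have hd0 : (0 : ℝ) < d := by linarith
  have hb0 : 0 < d.choose k := Nat.choose_pos (by omega)
  have hb : (0 : ℝ) < (d.choose k : ℝ) := by exact_mod_cast hb0
  set b : ℝ := (d.choose k : ℝ) with hbdef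
  set x : ℝ := (m : ℝ) / b with hx
  have hxb : x * b = m := by rw [hx]; field_simp
  have hxK : K₀ ≤ x := by rw [hx, le_div_iff₀ hb]; exact hm1
  have hxth : x ≤ th * d := by rw [hx, div_le_iff₀ hb]; exact hm2
  have hx0 : 0 < x := by linarith
  have hm2d : m ≤ 2 ^ d := by
    have h1 : (m : ℝ) ≤ (d : ℝ) ^ (k + 1) := by
      have h2 : b ≤ (d : ℝ) ^ k := by
        rw [hbdef]
        exact_mod_cast Nat.choose_le_pow d k
      calc (m : ℝ) = x * b := hxb.symm
        _ ≤ (d : ℝ) * (d : ℝ) ^ k := by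
          apply mul_le_mul _ h2 hb.le hd0.le
          nlinarith
        _ = (d : ℝ) ^ (k + 1) := by ring
    have h3 : m ≤ d ^ (k + 1) := by exact_mod_cast h1
    exact h3.trans (hd₂ d hd2)
  have hm0 : 1 ≤ m := by
    have : (0 : ℝ) < m := by rw [← hxb]; positivity
    have : 0 < m := by exact_mod_cast this
    exact this
  have hG := Pool.Agent.helper65.HC.lam_isGreatest d m hm0 hm2d
  refine ⟨hG, ?_⟩
  -- upper bound
  have hup : lam d m ≤ h * √d + (1 + η) * √x := by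
    obtain ⟨U, hUc, ht⟩ := hG.1
    obtain ⟨A, hA, hAc, f, hN, hE⟩ := hDC d U (lam d m) ht.1
    rw [hUc] at hAc
    have h1 := hU d hd1 x A (a1.trans hxK) (hxth.trans (mul_le_mul_of_nonneg_right
      (min_le_left _ _) hd0.le)) hA (by rw [hAc, ← hbdef, hxb]) f
    rw [hN, mul_one] at h1
    linarith
  -- lower bound
  set n : ℕ := ⌊x⌋₊ with hn
  have hnx : (n : ℝ) ≤ x := Nat.floor_le hx0.le
  have hxn : x < n + 1 := Nat.lt_floor_add_one x
  have hnn₀ : n₀ ≤ n := by
    have : (n₀ : ℝ) < n + 1 := by linarith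
    have : n₀ < n + 1 := by exact_mod_cast this
    omega
  have hn1 : 1 ≤ n := hn₀.trans hnn₀
  have hn1r : (1 : ℝ) ≤ n := by exact_mod_cast hn1
  have hn4 : (n : ℝ) ≤ d / 4 := by nlinarith
  have hnk : n + k ≤ d := by
    have : (n : ℝ) + k ≤ d := by linarith
    exact_mod_cast this
  have hDr : ((d - n - k : ℕ) : ℝ) = (d : ℝ) - n - k := by
    rw [Nat.sub_sub, Nat.cast_sub hnk]
    push_cast
    ring
  have hD2k : 2 * k + 1 ≤ d - n - k := by
    have : 2 * (k : ℝ) + 1 ≤ ((d - n - k : ℕ) : ℝ) := by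
      rw [hDr]
      linarith
    exact_mod_cast this
  have hnb : n * (d - n - k + k).choose k ≤ m := by
    have e : d - n - k + k = d - n := by omega
    rw [e]
    have h1 : (d - n).choose k ≤ d.choose k := Nat.choose_le_choose k (by omega)
    have h2 : (n : ℝ) * b ≤ m := by
      rw [← hxb]
      exact mul_le_mul_of_nonneg_right hnx hb.le
    have h3 : n * d.choose k ≤ m := by
      rw [hbdef] at h2
      exact_mod_cast h2
    exact (Nat.mul_le_mul_left n h1).trans h3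
  have hlo := hLBK k n (d - n - k) d m hk hn1 hD2k (by omega) hnb hm2d
  obtain ⟨l1, l2⟩ := hL n hnn₀
  have hlam : lam n n = √((n : ℝ) - 1) := by
    rw [← l2, Real.sqrt_sq l1]
  rw [hlam] at hlo
  have hsd : 0 < √(d : ℝ) := Real.sqrt_pos.2 hd0
  have hsd2 : √(d : ℝ) ^ 2 = d := Real.sq_sqrt hd0.le
  have hfin := FNB_low h x (√(d : ℝ)) k n ((d - n - k : ℕ) : ℝ) η th hh0 hkr hsd
    (by rw [hDr, hsd2]) hn1r hnx hxn (a3.trans hxK) (by
      have := a4.trans hxK
      rw [div_le_iff₀ hη0] at this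
      linarith) hη0 (by rw [hsd2]; exact hxth) hth0 hth4 (by rw [hsd2]; linarith) hthe
  have hsx : 0 ≤ √x := Real.sqrt_nonneg _
  have hηe : η * √x ≤ eta * √x := mul_le_mul_of_nonneg_right (min_le_left _ _) hsx
  rw [abs_le]
  constructor <;> linarith

end

end Pool.Agent.PLR
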